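import Pool.Agent.J4H26.KP.Q2
import Pool.Agent.J4H26.PC.B2
import Pool.Agent.J4H39.K13

/-!
Project KP (helper26, MP_d02c56_nt), piece L5 = EEG2: long windows and independent walks.
-/

set_option autoImplicit false

namespace Pool.Agent.J4H79.KP

open Finset Filter Real MeasureTheory
open Pool.Agent.J4H39 (T od ex pb exK th0 ex_mono ex_congr ex_add ex_mul ex_const ex_nonneg
  pb_nonneg pb_mono th0_pos th0_lt th0_gt exK_close)
open Pool.Agent.J4H26.PC (Iv Ph S_STM avg_bd Ph_bd Ph_meas ii_bdd ex_abs int_ex cov pb_dev_w len_eq)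
open Pool.Agent.J4H26.KP (ccK GGK EE2 S_GAMK S_EEG2)

theorem prod_two {K : ℕ} : ∀ (a b : Fin K → ℝ) (e : ℝ), 0 ≤ e → (∀ i, |a i| ≤ 2) → (∀ i, |b i| ≤ 2) →
    (∀ i, |a i - b i| ≤ e) → |∏ i, a i| ≤ 2 ^ K ∧ |∏ i, a i - ∏ i, b i| ≤ K * 2 ^ K * e := by
  induction K with
  | zero =>
    intro a b e he _ _ _
    simp
  | succ K ih =>
    intro a b e he ha hb hab
    obtain ⟨h1, h2⟩ := ih (fun i => a i.succ) (fun i => b i.succ) e he (fun i => ha _) (fun i => hb _)
      (fun i => hab _)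
    rw [Fin.prod_univ_succ, Fin.prod_univ_succ]
    have h3 := ha 0
    have h4 := hb 0
    have h5 := hab 0
    constructor
    · rw [abs_mul, pow_succ, mul_comm]
      exact mul_le_mul h1 h3 (abs_nonneg _) (by positivity)
    · have e1 : a 0 * ∏ i : Fin K, a i.succ - b 0 * ∏ i : Fin K, b i.succ =
          (a 0 - b 0) * ∏ i : Fin K, a i.succ + b 0 * (∏ i : Fin K, a i.succ - ∏ i : Fin K, b i.succ) := by
        ring
      rw [e1]
      refine (abs_add_le _ _).trans ?_
      rw [abs_mul, abs_mul]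
      have k1 : |a 0 - b 0| * |∏ i : Fin K, a i.succ| ≤ e * 2 ^ K :=
        mul_le_mul h5 h1 (abs_nonneg _) he
      have k2 : |b 0| * |∏ i : Fin K, a i.succ - ∏ i : Fin K, b i.succ| ≤ 2 * (K * 2 ^ K * e) :=
        mul_le_mul h4 h2 (abs_nonneg _) (by norm_num)
      have k3 : (0 : ℝ) ≤ e * 2 ^ K := by positivity
      push_cast
      rw [pow_succ]
      nlinarith

theorem exK_mul {s : ℕ} (c : ℝ) : ∀ {K : ℕ} (G : (Fin K → ℤ) → ℝ),
    exK s K (fun v => c * G v) = c * exK s K G := by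
  intro K
  induction K with
  | zero => intro G; rfl
  | succ K ih =>
    intro G
    simp only [exK]
    rw [← ex_mul]
    apply ex_congr
    intro y
    exact ih (fun v => G (Fin.cons y v))

theorem exK_prod {s : ℕ} : ∀ {K : ℕ} (A : Fin K → ℤ → ℝ),
    exK s K (fun v => ∏ i, A i (v i)) = ∏ i, ex s (A i) := by
  intro K
  induction K with
  | zero => intro A; simp [exK]
  | succ K ih =>
    intro A
    simp only [exK]
    rw [Fin.prod_univ_succ, mul_comm, ← ex_mul]
    apply ex_congr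
    intro y
    have h1 : (fun v : Fin K → ℤ => ∏ i : Fin (K + 1), A i (Fin.cons (α := fun _ => ℤ) y v i)) =
        fun v => A 0 y * ∏ i : Fin K, A i.succ (v i) := by
      funext v
      rw [Fin.prod_univ_succ]
      simp only [Fin.cons_zero, Fin.cons_succ]
    rw [h1, exK_mul, ih (fun i => A i.succ), mul_comm]

theorem ex_meas {s : ℕ} {F : ℤ → ℝ → ℝ} (h : ∀ y, Measurable (F y)) :
    Measurable (fun x => ex s (fun y => F y x)) := by
  unfold ex
  apply Measurable.div_const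
  exact Finset.measurable_sum _ (fun i _ => h _)

theorem exK_meas {s : ℕ} : ∀ {K : ℕ} {F : (Fin K → ℤ) → ℝ → ℝ}, (∀ v, Measurable (F v)) →
    Measurable (fun x => exK s K (fun v => F v x)) := by
  intro K
  induction K with
  | zero => intro F h; exact h _
  | succ K ih =>
    intro F h
    simp only [exK]
    exact ex_meas (F := fun y x => exK s K (fun v => F (Fin.cons y v) x))
      (fun y => ih (F := fun v x => F (Fin.cons y v) x) (fun v => h _))

theorem exK_bd {s : ℕ} {C : ℝ} : ∀ {K : ℕ} {F : (Fin K → ℤ) → ℝ}, (∀ v, |F v| ≤ C) →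
    |exK s K F| ≤ C := by
  intro K
  induction K with
  | zero => intro F h; exact h _
  | succ K ih =>
    intro F h
    simp only [exK]
    exact ex_abs (fun y => ih (fun v => h _))

theorem exK_int {s : ℕ} {C p q : ℝ} : ∀ {K : ℕ} {F : (Fin K → ℤ) → ℝ → ℝ}, (∀ v, Measurable (F v)) →
    (∀ v x, |F v x| ≤ C) →
    (∫ x in p..q, exK s K (fun v => F v x)) = exK s K (fun v => ∫ x in p..q, F v x) := by
  intro K
  induction K with
  | zero => intro F _ _; rfl
  | succ K ih =>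
    intro F h hb
    simp only [exK]
    rw [int_ex (F := fun y x => exK s K (fun v => F (Fin.cons y v) x)) (fun y =>
      ii_bdd (exK_meas (F := fun v x => F (Fin.cons y v) x) (fun v => h _))
        (fun x => exK_bd (fun v => hb _ _)) _ _)]
    apply ex_congr
    intro y
    exact ih (F := fun v x => F (Fin.cons y v) x) (fun v => h _) (fun v x => hb _ _)

theorem ccK_bd {K : ℕ} {F : Fin K → ℤ → ℝ} (hF : ∀ i, Iv (F i)) (κ X : ℝ) (D : Fin K → ℕ)
    (r : Fin K → ℤ) : |ccK F κ X D r| ≤ 2 := by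
  apply avg_bd (f := fun n => ∏ i, F i (3 ^ D i * n + r i))
  intro n
  rw [Finset.abs_prod]
  exact Finset.prod_le_one (fun i _ => abs_nonneg _) (fun i _ => (hF i).bd _)

open Classical in
theorem t_EEG2 (hS : S_STM) (hG : S_GAMK) : S_EEG2 := by
  intro K ε hε
  obtain ⟨C₁, hC₁, h1⟩ := hS
  have h2 := hG K (ε / 4) (by positivity)
  have hlim1 : ∀ᶠ w : ℕ in atTop, (K * 2 ^ K * C₁ : ℝ) / √(w : ℝ) ≤ ε / 4 := by
    have h : Tendsto (fun v : ℕ => (K * 2 ^ K * C₁ : ℝ) / √(v : ℝ)) atTop (nhds 0) := by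
      apply Tendsto.const_div_atTop
      exact Real.tendsto_sqrt_atTop.comp tendsto_natCast_atTop_atTop
    exact (h.eventually (gt_mem_nhds (show (0 : ℝ) < ε / 4 by positivity))).mono (fun v hv => hv.le)
  have hlim2 : ∀ᶠ w : ℕ in atTop, (K * (2 ^ K + 2) * 400 : ℝ) / (w : ℝ) ≤ ε / 4 := by
    have h : Tendsto (fun v : ℕ => (K * (2 ^ K + 2) * 400 : ℝ) / (v : ℝ)) atTop (nhds 0) := by
      apply Tendsto.const_div_atTop
      exact tendsto_natCast_atTop_atTop
    exact (h.eventually (gt_mem_nhds (show (0 : ℝ) < ε / 4 by positivity))).mono (fun v hv => hv.le)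
  filter_upwards [h1, h2, hlim1, hlim2, eventually_ge_atTop 200] with w h1 h2 hlim1 hlim2 hw200 F hF κ X hκ hX t ht1
    ht2 hlam D hD
  have hw1 : 1 ≤ w := by omega
  have hw1' : (1 : ℝ) ≤ w := by exact_mod_cast hw1
  have hwp : (0 : ℝ) < w := by linarith
  have hw200' : (200 : ℝ) ≤ w := by exact_mod_cast hw200
  have ht : 1 ≤ t := (Nat.one_le_pow _ _ hw1).trans ht1
  obtain ⟨V52, hV52⟩ : ∃ V : ℝ, V = (w : ℝ) ^ 52 := ⟨_, rfl⟩
  obtain ⟨V53, hV53⟩ : ∃ V : ℝ, V = (w : ℝ) ^ 53 := ⟨_, rfl⟩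
  obtain ⟨V80, hV80⟩ : ∃ V : ℝ, V = (w : ℝ) ^ 80 := ⟨_, rfl⟩
  have v52w : (w : ℝ) ≤ V52 := by rw [hV52]; exact le_self_pow₀ hw1' (by norm_num)
  have v5253 : 200 * V52 ≤ V53 := by
    rw [hV52, hV53, pow_succ (w : ℝ) 52, mul_comm]
    exact mul_le_mul_of_nonneg_left hw200' (by positivity)
  have v5380 : V53 ≤ V80 := by rw [hV53, hV80]; exact pow_le_pow_right₀ hw1' (by norm_num)
  set a : ℝ := (2 : ℝ) ^ (th0 * t + (w : ℝ) ^ 53) with ha
  have ha0 : 0 < a := by rw [ha]; positivity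
  have hla : logb 2 a = th0 * t + V53 := by
    rw [ha, Real.logb_rpow (by norm_num) (by norm_num), hV53]
  have ha2 : (2 : ℝ) ^ (th0 * t + (w : ℝ) ^ 52) ≤ a := by
    rw [ha]
    apply Real.rpow_le_rpow_of_exponent_le (by norm_num)
    rw [← hV52, ← hV53]
    linarith
  have hDa : ∀ D : ℕ, (2 : ℝ) ^ (th0 * t + (w : ℝ) ^ 52) ≤ 3 ^ D * a := fun D =>
    ha2.trans (le_mul_of_one_le_left ha0.le (one_le_pow₀ (by norm_num)))
  -- the products
  set A : Fin K → ℤ → ℝ → ℝ := fun i y x =>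
    Ph (F i) (3 ^ od t y * (3 ^ D i * x) / 2 ^ t) (3 ^ od t y * (3 ^ D i * a) / 2 ^ t) with hA
  have hAm : ∀ i y, Measurable (A i y) := by
    intro i y
    exact (Ph_meas (F i) _).comp (((measurable_id.const_mul _).const_mul _).div_const _)
  have hAb : ∀ i y x, |A i y x| ≤ 2 := fun i y x => Ph_bd (hF i) _ _
  set PA : (Fin K → ℤ) → ℝ → ℝ := fun v x => ∏ i, A i (v i) x with hPA
  have hPAm : ∀ v, Measurable (PA v) := fun v => Finset.measurable_prod _ (fun i _ => hAm i (v i))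
  have hPAb : ∀ v x, |PA v x| ≤ 2 ^ K := fun v x =>
    (prod_two (fun i => A i (v i) x) (fun i => A i (v i) x) 0 le_rfl (fun i => hAb _ _ _) (fun i => hAb _ _ _)
      (fun i => by simp)).1
  have hB0 : (0 : ℝ) ≤ C₁ / √w := by positivity
  have hpt : ∀ x, |(∏ i, Ph (F i) (3 ^ D i * x) (3 ^ D i * a)) - exK t K (fun v => PA v x)| ≤
      K * 2 ^ K * (C₁ / √w) := by
    intro x
    have e1 : exK t K (fun v => PA v x) = ∏ i, ex t (fun y => A i y x) := by
      rw [hPA]
      exact exK_prod (fun i y => A i y x)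
    rw [e1]
    exact (prod_two _ _ _ hB0 (fun i => Ph_bd (hF i) _ _) (fun i => ex_abs (fun y => hAb i y x))
      (fun i => h1 t ht1 ht2 (F i) (hF i) (3 ^ D i * x) (3 ^ D i * a) (hDa _))).2
  have s1 : |GGK F κ a X D - exK t K (fun v => (∫ x in (κ * X)..(κ * X + X), PA v x) / X)| ≤
      K * 2 ^ K * (C₁ / √w) := by
    have e1 : exK t K (fun v => (∫ x in (κ * X)..(κ * X + X), PA v x) / X) =
        (∫ x in (κ * X)..(κ * X + X), exK t K (fun v => PA v x)) / X := by
      rw [exK_int (F := PA) hPAm hPAb, div_eq_inv_mul, ← exK_mul]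
      congr 1
      funext v
      rw [div_eq_inv_mul]
    rw [e1]
    unfold GGK
    have i1 : IntervalIntegrable (fun x => ∏ i, Ph (F i) (3 ^ D i * x) (3 ^ D i * a)) volume (κ * X) (κ * X + X) := by
      refine ii_bdd (C := 2 ^ K) ?_ ?_ _ _
      · exact Finset.measurable_prod _ (fun i _ => (Ph_meas (F i) _).comp (measurable_id.const_mul _))
      · intro x
        exact (prod_two _ (fun i => Ph (F i) (3 ^ D i * x) (3 ^ D i * a)) 0 le_rfl (fun i => Ph_bd (hF i) _ _)
          (fun i => Ph_bd (hF i) _ _) (fun i => by simp)).1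
    have i2 : IntervalIntegrable (fun x => exK t K (fun v => PA v x)) volume (κ * X) (κ * X + X) :=
      ii_bdd (exK_meas hPAm) (fun x => exK_bd (fun v => hPAb v x)) _ _
    rw [← sub_div, ← intervalIntegral.integral_sub i1 i2, abs_div, abs_of_pos hX, div_le_iff₀ hX]
    have h5 := intervalIntegral.norm_integral_le_of_norm_le_const (a := κ * X) (b := κ * X + X)
      (C := K * 2 ^ K * (C₁ / √w))
      (f := fun x => (∏ i, Ph (F i) (3 ^ D i * x) (3 ^ D i * a)) - exK t K (fun v => PA v x)) (fun x _ => by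
        rw [Real.norm_eq_abs]
        exact hpt x)
    rw [Real.norm_eq_abs] at h5
    refine h5.trans (le_of_eq ?_)
    rw [show κ * X + X - κ * X = X by ring, abs_of_pos hX]
  -- the exponents
  obtain ⟨c, hc⟩ : ∃ c : ℝ, c = 3 ^ (t / 2) / 2 ^ t := ⟨_, rfl⟩
  have hc0 : 0 < c := by rw [hc]; positivity
  have hcX : 3 ^ (t / 2) * X / 2 ^ t = c * X := by rw [hc]; ring
  have hca : 3 ^ (t / 2) * a / 2 ^ t = c * a := by rw [hc]; ring
  have hhalf : (-1 : ℝ) ≤ 2 * ((t / 2 : ℕ) : ℝ) - t ∧ 2 * ((t / 2 : ℕ) : ℝ) - t ≤ 0 := by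
    have g1 : t ≤ 2 * (t / 2) + 1 := by omega
    have g2 : 2 * (t / 2) ≤ t := by omega
    have g1' : (t : ℝ) ≤ 2 * ((t / 2 : ℕ) : ℝ) + 1 := by exact_mod_cast g1
    have g2' : 2 * ((t / 2 : ℕ) : ℝ) ≤ t := by exact_mod_cast g2
    constructor <;> linarith
  have hth := th0_pos
  have hth4 := th0_lt
  have hmul : -1 ≤ (1 - th0) * (2 * ((t / 2 : ℕ) : ℝ) - t) ∧ (1 - th0) * (2 * ((t / 2 : ℕ) : ℝ) - t) ≤ 0 := by
    obtain ⟨g1, g2⟩ := hhalf
    constructor <;> nlinarith
  have hlX := len_eq (w := 0) (t := t) (m := t / 2) hX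
  have hlA := len_eq (w := 0) (t := t) (m := t / 2) ha0
  rw [hcX] at hlX
  rw [hca, hla] at hlA
  rw [← hV80] at hlam
  have hX' : (2 : ℝ) ^ (w ^ 80) ≤ c * X := by
    rw [show (2 : ℝ) ^ (w ^ 80) = (2 : ℝ) ^ ((w ^ 80 : ℕ) : ℝ) from (Real.rpow_natCast 2 _).symm,
      ← Real.le_logb_iff_rpow_le (by norm_num) (by positivity)]
    push_cast
    rw [← hV80]
    linarith [hmul.1]
  have hb1 : (w : ℝ) ^ 2 ≤ c * a := by
    have e1 : (w : ℝ) ^ 2 ≤ (2 : ℝ) ^ (2 * (w : ℝ)) := by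
      rw [mul_comm, Real.rpow_mul (by norm_num), Real.rpow_natCast, Real.rpow_two]
      have : (w : ℝ) ≤ 2 ^ w := by exact_mod_cast (Nat.lt_two_pow_self).le
      gcongr
    refine e1.trans ?_
    rw [← Real.le_logb_iff_rpow_le (by norm_num) (by positivity)]
    linarith [hmul.1]
  have hb2 : c * a ≤ (2 : ℝ) ^ (w ^ 54) := by
    rw [show (2 : ℝ) ^ (w ^ 54) = (2 : ℝ) ^ ((w ^ 54 : ℕ) : ℝ) from (Real.rpow_natCast 2 _).symm,
      ← Real.logb_le_iff_le_rpow (by norm_num) (by positivity)]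
    push_cast
    have e1 : 2 * V53 ≤ (w : ℝ) ^ 54 := by
      rw [hV53, pow_succ (w : ℝ) 53, mul_comm]
      exact mul_le_mul_of_nonneg_left (by linarith) (by positivity)
    linarith [hmul.2]
  have hpb := pb_dev_w hw1 ht ht2
  obtain ⟨Bad, hBad⟩ : ∃ Bad : ℤ → Prop, Bad = fun y => (w : ℝ) ^ 45 ≤ |2 * (od t y : ℝ) - t| := ⟨_, rfl⟩
  rw [← hBad] at hpb
  have hM0 : (0 : ℝ) ≤ 2 ^ K + 2 := by positivity
  have s2 : |exK t K (fun v => (∫ x in (κ * X)..(κ * X + X), PA v x) / X) - EE2 F κ X D t| ≤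
      ∑ i : Fin K, ex t (fun y => (2 ^ K + 2) * (if Bad y then 1 else 0)) + ε / 4 := by
    unfold EE2
    apply exK_close
    intro v
    by_cases hgood : ∀ i, ¬ Bad (v i)
    · have h0 : (0 : ℝ) ≤ ∑ i : Fin K, (fun y => (2 ^ K + 2) * (if Bad y then (1 : ℝ) else 0)) (v i) := by
        apply Finset.sum_nonneg
        intro i _
        simp only
        split_ifs <;> positivity
      have hdev : ∀ i, (t : ℤ) - w ^ 45 < 2 * od t (v i) ∧ 2 * (od t (v i) : ℤ) < t + w ^ 45 := by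
        intro i
        have g := hgood i
        rw [hBad] at g
        simp only [not_le] at g
        rw [abs_lt] at g
        constructor
        · have : (t : ℝ) - (w : ℝ) ^ 45 < 2 * (od t (v i) : ℝ) := by linarith
          exact_mod_cast this
        · have : 2 * (od t (v i) : ℝ) < (t : ℝ) + (w : ℝ) ^ 45 := by linarith
          exact_mod_cast this
      have hDz1 : ∀ i, (w : ℤ) ^ 45 ≤ (D i : ℤ) := fun i => by exact_mod_cast (hD i).1
      have hDz2 : ∀ i, 2 * (D i : ℤ) ≤ (w : ℤ) ^ 48 := fun i => by exact_mod_cast (hD i).2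
      have z1 : (w : ℤ) ^ 45 + 1 ≤ (w : ℤ) ^ 48 := by
        have : (w : ℤ) ^ 45 < (w : ℤ) ^ 48 := pow_lt_pow_right₀ (by omega) (by norm_num)
        omega
      have hsum : ∀ i, ((D i : ℤ) + od t (v i) - (t / 2 : ℕ)).toNat + t / 2 = D i + od t (v i) := by
        intro i
        have := (hdev i).1
        have := hDz1 i
        omega
      have hle : ∀ i, ((D i : ℤ) + od t (v i) - (t / 2 : ℕ)).toNat ≤ w ^ 48 := by
        intro i
        have k1 := (hdev i).2
        have k2 := hDz2 i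
        have k3 : ((D i : ℤ) + od t (v i) - (t / 2 : ℕ)) ≤ (w : ℤ) ^ 48 := by omega
        rw [Int.toNat_le]
        exact_mod_cast k3
      have e2 : (∫ x in (κ * X)..(κ * X + X), PA v x) / X =
          GGK F κ (c * a) (c * X) (fun i => ((D i : ℤ) + od t (v i) - (t / 2 : ℕ)).toNat) := by
        unfold GGK
        rw [← cov (H := fun x => ∏ i, Ph (F i) (3 ^ ((D i : ℤ) + od t (v i) - (t / 2 : ℕ)).toNat * x)
          (3 ^ ((D i : ℤ) + od t (v i) - (t / 2 : ℕ)).toNat * (c * a))) (κ := κ) hc0 hX]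
        congr 1
        apply intervalIntegral.integral_congr
        intro x _
        simp only [hPA, hA]
        refine Finset.prod_congr rfl fun i _ => ?_
        have e3 : (3 : ℝ) ^ od t (v i) * 3 ^ D i =
            3 ^ ((D i : ℤ) + od t (v i) - (t / 2 : ℕ)).toNat * 3 ^ (t / 2) := by
          rw [← pow_add, ← pow_add, hsum i, add_comm]
        rw [hc, show (3 : ℝ) ^ od t (v i) * (3 ^ D i * x) / 2 ^ t = (3 ^ od t (v i) * 3 ^ D i) * x / 2 ^ t by ring,
          show (3 : ℝ) ^ od t (v i) * (3 ^ D i * a) / 2 ^ t = (3 ^ od t (v i) * 3 ^ D i) * a / 2 ^ t by ring, e3]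
        congr 1 <;> ring
      rw [e2, hcX]
      have h6 := h2 F hF κ (c * X) (c * a) hκ hX' hb1 hb2 _ hle
      linarith
    · push Not at hgood
      obtain ⟨i₀, hi₀⟩ := hgood
      have h3 : (2 ^ K + 2 : ℝ) ≤ ∑ i : Fin K, (fun y => (2 ^ K + 2) * (if Bad y then (1 : ℝ) else 0)) (v i) := by
        have h4 : (2 ^ K + 2 : ℝ) = (fun y => (2 ^ K + 2) * (if Bad y then (1 : ℝ) else 0)) (v i₀) := by
          simp only [if_pos hi₀, mul_one]
        refine h4.le.trans ?_
        refine Finset.single_le_sum (f := fun i => (fun y => (2 ^ K + 2) * (if Bad y then (1 : ℝ) else 0)) (v i))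
          (fun i _ => ?_) (Finset.mem_univ i₀)
        simp only
        split_ifs <;> positivity
      have h4 : |(∫ x in (κ * X)..(κ * X + X), PA v x) / X| ≤ 2 ^ K := by
        rw [abs_div, abs_of_pos hX, div_le_iff₀ hX]
        have h5 := intervalIntegral.norm_integral_le_of_norm_le_const (a := κ * X) (b := κ * X + X)
          (C := 2 ^ K) (f := fun x => PA v x) (fun x _ => by
            rw [Real.norm_eq_abs]
            exact hPAb v x)
        rw [Real.norm_eq_abs] at h5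
        refine h5.trans (le_of_eq ?_)
        rw [show κ * X + X - κ * X = X by ring, abs_of_pos hX]
      have h5 := ccK_bd hF κ (3 ^ (t / 2) * X / 2 ^ t) (fun i => ((D i : ℤ) + od t (v i) - (t / 2 : ℕ)).toNat)
        (fun _ => 0)
      have h6 := abs_sub ((∫ x in (κ * X)..(κ * X + X), PA v x) / X)
        (ccK F κ (3 ^ (t / 2) * X / 2 ^ t) (fun i => ((D i : ℤ) + od t (v i) - (t / 2 : ℕ)).toNat) (fun _ => 0))
      linarith
  have hpbe : ex t (fun y => (2 ^ K + 2) * (if Bad y then (1 : ℝ) else 0)) ≤ (2 ^ K + 2) * (400 / w) := by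
    rw [ex_mul]
    exact mul_le_mul_of_nonneg_left hpb hM0
  have hsum2 : ∑ i : Fin K, ex t (fun y => (2 ^ K + 2) * (if Bad y then (1 : ℝ) else 0)) ≤ ε / 4 := by
    rw [Finset.sum_const, Finset.card_univ, Fintype.card_fin, nsmul_eq_mul]
    refine (mul_le_mul_of_nonneg_left hpbe (Nat.cast_nonneg K)).trans ?_
    refine le_trans (le_of_eq ?_) hlim2
    ring
  have hs1 : (K * 2 ^ K * (C₁ / √w) : ℝ) ≤ ε / 4 := by
    refine le_trans (le_of_eq ?_) hlim1
    ring
  have h7 := abs_sub_le (GGK F κ a X D) (exK t K (fun v => (∫ x in (κ * X)..(κ * X + X), PA v x) / X))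
    (EE2 F κ X D t)
  linarith

end Pool.Agent.J4H79.KP
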